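import Pool.Agent.H84.SS.Targets

/-!
# MP_352bb5_an: row M_SQD, the integrals of the square averages of `f` against `g`
-/

set_option autoImplicit false

open MeasureTheory Filter Topology Set ProbabilityTheory
open scoped ENNReal ComplexConjugate
open Pool.Agent.H84.SS
open Pool.Agent.H85.RT (avg GoodWeight Good)
open Pool.Agent.H94.RTB (LGood PD)

universe u v

namespace Pool.Agent.H7.SS

private theorem condExp_bdd {X : Type u} {m0 : MeasurableSpace X} {μ : Measure X}
    [IsProbabilityMeasure μ] {I : MeasurableSpace X} (hI : I ≤ m0) {F : X → ℂ} {C : ℝ}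
    (hF : Integrable F μ) (hb : ∀ x, ‖F x‖ ≤ C) : ∀ᵐ x ∂μ, ‖(μ[F | I]) x‖ ≤ C := by
  have h1 := norm_condExp_le (μ := μ) (m := I) F
  have h3 : μ[fun x => ‖F x‖ | I] ≤ᵐ[μ] μ[fun _ => C | I] :=
    condExp_mono hF.norm (integrable_const C) (Eventually.of_forall hb)
  rw [condExp_const hI] at h3
  filter_upwards [h1, h3] with x h1 h2 using h1.trans h2

private theorem sq_expand (s : Finset (ℕ × ℕ)) (u a : ℕ × ℕ → ℂ) :
    ‖∑ i ∈ s, u i * a i‖ ^ 2 =
      (∑ i ∈ s, ∑ j ∈ s, u i * conj (u j) * (a i * conj (a j))).re := by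
  have h : (∑ i ∈ s, u i * a i) * conj (∑ i ∈ s, u i * a i) =
      ∑ i ∈ s, ∑ j ∈ s, u i * conj (u j) * (a i * conj (a j)) := by
    rw [map_sum, Finset.sum_mul_sum]
    refine Finset.sum_congr rfl fun i _ => Finset.sum_congr rfl fun j _ => ?_
    rw [map_mul]
    ring
  rw [← h, Complex.mul_conj, Complex.ofReal_re, Complex.normSq_eq_norm_sq]

private theorem sq_int {X : Type u} [MeasurableSpace X] {μ : Measure X} [IsFiniteMeasure μ]
    (s : Finset (ℕ × ℕ)) (u : ℕ × ℕ → ℂ) (a : ℕ × ℕ → X → ℂ) (ha : ∀ i, Measurable (a i))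
    (hb : ∀ i x, ‖a i x‖ ≤ 1) : Integrable (fun x => ‖∑ i ∈ s, u i * a i x‖ ^ 2) μ := by
  have hm : Measurable fun x => ∑ i ∈ s, u i * a i x :=
    Finset.measurable_sum s fun i _ => (ha i).const_mul (u i)
  refine Integrable.of_bound (hm.norm.pow_const 2).aestronglyMeasurable ((∑ i ∈ s, ‖u i‖) ^ 2)
    (Eventually.of_forall fun x => ?_)
  rw [Real.norm_eq_abs, abs_of_nonneg (by positivity)]
  have h1 : ‖∑ i ∈ s, u i * a i x‖ ≤ ∑ i ∈ s, ‖u i‖ := by
    refine (norm_sum_le _ _).trans (Finset.sum_le_sum fun i _ => ?_)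
    rw [norm_mul]
    exact mul_le_of_le_one_right (norm_nonneg _) (hb i x)
  gcongr

section fpl

variable {X : Type u} [MeasurableSpace X] {T : X ≃ᵐ X} {f : X → ℂ}

private theorem meas_iter (T : X ≃ᵐ X) (n : ℕ) : Measurable (T^[n]) := T.measurable.iterate n

private theorem fp_meas (hf : Measurable f) (b b' : ℕ) : Measurable (fp T f b b') := by
  unfold fp
  exact (hf.comp (meas_iter T b)).mul
    (Complex.continuous_conj.measurable.comp (hf.comp (meas_iter T b')))

private theorem fp_bdd (hb : ∀ x, ‖f x‖ ≤ 1) (b b' : ℕ) (x : X) : ‖fp T f b b' x‖ ≤ 1 := by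
  unfold fp
  rw [norm_mul, RCLike.norm_conj]
  exact mul_le_one₀ (hb _) (norm_nonneg _) (hb _)

private theorem int_of_bdd {μ : Measure X} [IsFiniteMeasure μ] {F : X → ℂ} {C : ℝ}
    (hF : Measurable F) (hb : ∀ x, ‖F x‖ ≤ C) : Integrable F μ :=
  Integrable.of_bound hF.aestronglyMeasurable C (Eventually.of_forall hb)

private theorem symm_iter (T : X ≃ᵐ X) (n : ℕ) (x : X) : T.symm^[n] (T^[n] x) = x :=
  Function.LeftInverse.iterate (fun y => T.symm_apply_apply y) n x

end fpl

/-- conditional expectations given the invariant sets are invariant -/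
private theorem condExp_iter {X : Type u} [MeasurableSpace X] {μ : Measure X}
    [IsProbabilityMeasure μ] {T : X ≃ᵐ X} (hT : MeasurePreserving T μ μ) {H : X → ℂ}
    (hH : Measurable H) {C : ℝ} (hb : ∀ x, ‖H x‖ ≤ C) (k : ℕ) :
    μ[fun x => H (T^[k] x) | MeasurableSpace.invariants T] =ᵐ[μ]
      μ[H | MeasurableSpace.invariants T] := by
  have hI : MeasurableSpace.invariants T ≤ (inferInstance : MeasurableSpace X) :=
    MeasurableSpace.invariants_le T
  symm
  refine ae_eq_condExp_of_forall_setIntegral_eq hI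
    (int_of_bdd (hH.comp (meas_iter T k)) fun x => hb _) ?_ ?_ ?_
  · intro s _ _
    exact integrable_condExp.integrableOn
  · intro s hs _
    rw [setIntegral_condExp hI (int_of_bdd hH hb) hs]
    exact (setIntegral_iter hT hs H k).symm
  · exact stronglyMeasurable_condExp.aestronglyMeasurable

theorem pf_SQD (h1 : M_MEP.{u}) (h2 : M_PFE.{u}) : M_SQD.{u} := by
  intro X _ μ _ T f g hT hf hg hfb hgb s u Q Λ hQ hΛ
  have hI : MeasurableSpace.invariants T ≤ (inferInstance : MeasurableSpace X) :=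
    MeasurableSpace.invariants_le T
  obtain ⟨k, hk⟩ : ∃ k, ∀ i ∈ s, i.2 ≤ k :=
    ⟨s.sup Prod.snd, fun i hi => Finset.le_sup (f := Prod.snd) hi⟩
  let F : ℕ × ℕ → ℕ × ℕ → X → ℂ := fun i j => fp T f (k + i.1) (k + j.1)
  let G : ℕ × ℕ → ℕ × ℕ → X → ℂ := fun i j => fp T g (k - i.2) (k - j.2)
  let ψ : ℕ → ℝ := fun m =>
    ∫ x in Q, ‖∑ i ∈ s, u i * (f (T^[m + k + i.1] x) * g (T^[k - i.2] x))‖ ^ 2 ∂μ
  have hψ0 : ∀ m, 0 ≤ ψ m := fun m => integral_nonneg fun x => by positivity
  have hFm : ∀ i j, Measurable (F i j) := fun i j => fp_meas hf _ _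
  have hGm : ∀ i j, Measurable (G i j) := fun i j => fp_meas hg _ _
  have hFb : ∀ i j x, ‖F i j x‖ ≤ 1 := fun i j x => fp_bdd hfb _ _ x
  have hGb : ∀ i j x, ‖G i j x‖ ≤ 1 := fun i j x => fp_bdd hgb _ _ x
  -- the integrals of the squares
  have hprod : ∀ (a b : ℕ) (x : X) , ‖f (T^[a] x) * g (T^[b] x)‖ ≤ 1 := by
    intro a b x
    rw [norm_mul]
    exact mul_le_one₀ (hfb _) (norm_nonneg _) (hgb _)
  have hprod' : ∀ (a b : ℕ) (x : X) , ‖f (T^[a] x) * g (T.symm^[b] x)‖ ≤ 1 := by
    intro a b x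
    rw [norm_mul]
    exact mul_le_one₀ (hfb _) (norm_nonneg _) (hgb _)
  have c1 : ∀ n, ∫ x in Q, ‖∑ i ∈ s, u i * (f (T^[n + i.1] x) * g (T.symm^[n + i.2] x))‖ ^ 2 ∂μ =
      ψ (2 * n) := by
    intro n
    have e1 := setIntegral_iter hT hQ (fun x =>
      ((‖∑ i ∈ s, u i * (f (T^[n + i.1] x) * g (T.symm^[n + i.2] x))‖ ^ 2 : ℝ) : ℂ)) (n + k)
    rw [integral_complex_ofReal, integral_complex_ofReal] at e1
    have e2 := Complex.ofReal_injective e1
    rw [← e2]
    refine integral_congr_ae (Eventually.of_forall fun x => ?_)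
    dsimp only
    congr 2
    refine Finset.sum_congr rfl fun i hi => ?_
    have hki := hk i hi
    have e3 : T^[n + i.1] (T^[n + k] x) = T^[2 * n + k + i.1] x := by
      rw [← Function.iterate_add_apply T (n + i.1) (n + k) x,
        show n + i.1 + (n + k) = 2 * n + k + i.1 by omega]
    have e4 : T.symm^[n + i.2] (T^[n + k] x) = T^[k - i.2] x := by
      have e5 : T^[n + k] x = T^[n + i.2] (T^[k - i.2] x) := by
        rw [← Function.iterate_add_apply T (n + i.2) (k - i.2) x,
          show n + i.2 + (k - i.2) = n + k by omega]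
      rw [e5, symm_iter]
    rw [e3, e4]
  have c2 : ∀ M : ℕ, ∫ x in Q, (∑ n ∈ Finset.Icc 1 M,
      ‖∑ i ∈ s, u i * (f (T^[n + i.1] x) * g (T.symm^[n + i.2] x))‖ ^ 2) / M ∂μ =
      (∑ n ∈ Finset.Icc 1 M, ψ (2 * n)) / M := by
    intro M
    rw [integral_div, integral_finsetSum]
    · rw [Finset.sum_congr rfl fun n _ => c1 n]
    · intro n _
      exact sq_int s u (fun i x => f (T^[n + i.1] x) * g (T.symm^[n + i.2] x))
        (fun i => (hf.comp (meas_iter T _)).mul (hg.comp (meas_iter T.symm _)))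
        fun i x => hprod' _ _ x
  -- the expansion
  have c3 : ∀ m, ψ m = (∑ i ∈ s, ∑ j ∈ s, u i * conj (u j) *
      ∫ x in Q, F i j (T^[m] x) * G i j x ∂μ).re := by
    intro m
    have e1 : ∀ x, ‖∑ i ∈ s, u i * (f (T^[m + k + i.1] x) * g (T^[k - i.2] x))‖ ^ 2 =
        RCLike.re (∑ i ∈ s, ∑ j ∈ s, u i * conj (u j) * (F i j (T^[m] x) * G i j x)) := by
      intro x
      rw [sq_expand]
      show (_ : ℂ).re = (_ : ℂ).re
      congr 1
      refine Finset.sum_congr rfl fun i _ => Finset.sum_congr rfl fun j _ => ?_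
      congr 1
      show _ = (f (T^[k + i.1] (T^[m] x)) * conj (f (T^[k + j.1] (T^[m] x)))) *
        (g (T^[k - i.2] x) * conj (g (T^[k - j.2] x)))
      rw [← Function.iterate_add_apply, ← Function.iterate_add_apply,
        show k + i.1 + m = m + k + i.1 by omega, show k + j.1 + m = m + k + j.1 by omega, map_mul]
      ring
    have hint : ∀ i j, Integrable (fun x => F i j (T^[m] x) * G i j x) (μ.restrict Q) := by
      intro i j
      refine int_of_bdd (C := 1) (((hFm i j).comp (meas_iter T m)).mul (hGm i j)) fun x => ?_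
      rw [norm_mul]
      exact mul_le_one₀ (hFb i j _) (norm_nonneg _) (hGb i j _)
    show ∫ x in Q, ‖∑ i ∈ s, u i * (f (T^[m + k + i.1] x) * g (T^[k - i.2] x))‖ ^ 2 ∂μ = _
    simp only [e1]
    rw [integral_re]
    · show (_ : ℂ).re = (_ : ℂ).re
      congr 1
      rw [integral_finsetSum]
      · refine Finset.sum_congr rfl fun i _ => ?_
        rw [integral_finsetSum]
        · refine Finset.sum_congr rfl fun j _ => ?_
          rw [integral_const_mul]
        · intro j _
          exact (hint i j).const_mul _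
      · intro i _
        exact integrable_finsetSum _ fun j _ => (hint i j).const_mul _
    · exact integrable_finsetSum _ fun i _ => integrable_finsetSum _ fun j _ =>
        (hint i j).const_mul _
  have c4 : Tendsto (fun M : ℕ => (∑ m ∈ Finset.Icc 1 M, ψ m) / (M : ℝ)) atTop
      (𝓝 (∑ i ∈ s, ∑ j ∈ s, u i * conj (u j) *
        ∫ x in Q, (μ[F i j | MeasurableSpace.invariants T]) x *
          (μ[G i j | MeasurableSpace.invariants T]) x ∂μ).re) := by
    have e1 : ∀ M : ℕ, (∑ m ∈ Finset.Icc 1 M, ψ m) / (M : ℝ) =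
        (∑ i ∈ s, ∑ j ∈ s, u i * conj (u j) *
          ((∑ m ∈ Finset.Icc 1 M, ∫ x in Q, F i j (T^[m] x) * G i j x ∂μ) / (M : ℂ))).re := by
      intro M
      have e2 : ∑ i ∈ s, ∑ j ∈ s, u i * conj (u j) *
          ((∑ m ∈ Finset.Icc 1 M, ∫ x in Q, F i j (T^[m] x) * G i j x ∂μ) / (M : ℂ)) =
          (∑ m ∈ Finset.Icc 1 M, ∑ i ∈ s, ∑ j ∈ s, u i * conj (u j) *
            ∫ x in Q, F i j (T^[m] x) * G i j x ∂μ) / (M : ℂ) := by
        rw [Finset.sum_comm (s := Finset.Icc 1 M), Finset.sum_div]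
        refine Finset.sum_congr rfl fun i _ => ?_
        rw [Finset.sum_comm (s := Finset.Icc 1 M), Finset.sum_div]
        refine Finset.sum_congr rfl fun j _ => ?_
        rw [← Finset.mul_sum, mul_div_assoc]
      rw [e2, Complex.div_natCast_re, Complex.re_sum]
      congr 1
      exact Finset.sum_congr rfl fun m _ => c3 m
    simp only [e1]
    refine (Complex.continuous_re.tendsto _).comp ?_
    refine tendsto_finsetSum _ fun i _ => tendsto_finsetSum _ fun j _ => ?_
    exact (h1 X μ T (F i j) (G i j) 1 hT (hFm i j) (hGm i j) (hFb i j) (hGb i j) Q hQ).const_mul _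
  -- integrability
  have hcfT : ∀ b b', ∀ᵐ x ∂μ, ‖cf μ T f b b' x‖ ≤ 1 := fun b b' =>
    condExp_bdd hI (int_of_bdd (fp_meas hf b b') (fp_bdd hfb b b')) (fp_bdd hfb b b')
  have hI' : MeasurableSpace.invariants T.symm ≤ (inferInstance : MeasurableSpace X) :=
    MeasurableSpace.invariants_le T.symm
  have hcgT : ∀ b b', ∀ᵐ x ∂μ, ‖cf μ T.symm g b b' x‖ ≤ 1 := fun b b' =>
    condExp_bdd hI' (int_of_bdd (fp_meas hg b b') (fp_bdd hgb b b')) (fp_bdd hgb b b')
  have hint : ∀ i j : ℕ × ℕ, Integrable (fun x => u i * conj (u j) *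
      cf μ T f i.1 j.1 x * cf μ T.symm g i.2 j.2 x) (μ.restrict Q) := by
    intro i j
    have h5 : Integrable (fun x => cf μ T f i.1 j.1 x * cf μ T.symm g i.2 j.2 x) μ := by
      refine Integrable.of_bound ?_ 1 ?_
      · exact (integrable_condExp.aestronglyMeasurable).mul integrable_condExp.aestronglyMeasurable
      · filter_upwards [hcfT i.1 j.1, hcgT i.2 j.2] with x hx1 hx2
        rw [norm_mul]
        exact mul_le_one₀ hx1 (norm_nonneg _) hx2
    have h6 := (h5.const_mul (u i * conj (u j))).restrict (s := Q)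
    refine h6.congr (Eventually.of_forall fun x => ?_)
    dsimp only
    ring
  -- the identification of the limit
  have c5 : ∑ i ∈ s, ∑ j ∈ s, u i * conj (u j) *
        ∫ x in Q, (μ[F i j | MeasurableSpace.invariants T]) x *
          (μ[G i j | MeasurableSpace.invariants T]) x ∂μ =
      ∫ x in Q, ∑ i ∈ s, ∑ j ∈ s, u i * conj (u j) *
            cf μ T f i.1 j.1 x * cf μ T.symm g i.2 j.2 x ∂μ := by
    have e1 : ∀ i ∈ s, ∀ j ∈ s, ∀ᵐ x ∂μ, (μ[F i j | MeasurableSpace.invariants T]) x =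
        cf μ T f i.1 j.1 x := by
      intro i _ j _
      filter_upwards [h2 X μ T f hT hf hfb] with x hx
      show cf μ T f (k + i.1) (k + j.1) x = _
      rw [hx.1, hx.1]
      congr 1
      push_cast
      ring
    have e2 : ∀ i ∈ s, ∀ j ∈ s, ∀ᵐ x ∂μ, (μ[G i j | MeasurableSpace.invariants T]) x =
        cf μ T.symm g i.2 j.2 x := by
      intro i hi j hj
      have e3 := condExp_iter hT (fp_meas (T := T.symm) hg i.2 j.2)
        (fp_bdd (T := T.symm) hgb i.2 j.2) k
      have e4 : (fun x => fp T.symm g i.2 j.2 (T^[k] x)) = G i j := by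
        funext x
        show g (T.symm^[i.2] (T^[k] x)) * conj (g (T.symm^[j.2] (T^[k] x))) =
          g (T^[k - i.2] x) * conj (g (T^[k - j.2] x))
        have hki := hk i hi
        have hkj := hk j hj
        have e5 : T^[k] x = T^[i.2] (T^[k - i.2] x) := by
          rw [← Function.iterate_add_apply]
          congr 2
          omega
        have e6 : T^[k] x = T^[j.2] (T^[k - j.2] x) := by
          rw [← Function.iterate_add_apply]
          congr 2
          omega
        rw [show T.symm^[i.2] (T^[k] x) = T^[k - i.2] x by rw [e5, symm_iter],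
          show T.symm^[j.2] (T^[k] x) = T^[k - j.2] x by rw [e6, symm_iter]]
      rw [e4] at e3
      filter_upwards [e3] with x hx
      rw [hx]
      unfold cf
      rw [invariants_symm]
    rw [integral_finsetSum _ fun i _ => integrable_finsetSum _ fun j _ => hint i j]
    refine Finset.sum_congr rfl fun i hi => ?_
    rw [integral_finsetSum _ fun j _ => hint i j]
    refine Finset.sum_congr rfl fun j hj => ?_
    rw [← integral_const_mul]
    refine integral_congr_ae (ae_restrict_of_ae ?_)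
    filter_upwards [e1 i hi j hj, e2 i hi j hj] with x hx1 hx2
    rw [hx1, hx2]
    ring
  rw [c5] at c4
  have c6 : (∫ x in Q, ∑ i ∈ s, ∑ j ∈ s, u i * conj (u j) *
            cf μ T f i.1 j.1 x * cf μ T.symm g i.2 j.2 x ∂μ).re =
      ∫ x in Q, (∑ i ∈ s, ∑ j ∈ s, u i * conj (u j) *
            cf μ T f i.1 j.1 x * cf μ T.symm g i.2 j.2 x).re ∂μ :=
    (integral_re (integrable_finsetSum _ fun i _ => integrable_finsetSum _ fun j _ =>
      hint i j)).symm
  rw [c6] at c4
  simp only [c2] at hΛ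
  have c7 : Tendsto (fun M : ℕ => 2 * ((∑ m ∈ Finset.Icc 1 (2 * M), ψ m) / ((2 * M : ℕ) : ℝ)))
      atTop (𝓝 (2 * ∫ x in Q, (∑ i ∈ s, ∑ j ∈ s, u i * conj (u j) *
            cf μ T f i.1 j.1 x * cf μ T.symm g i.2 j.2 x).re ∂μ)) :=
    (c4.comp (tendsto_atTop_mono (fun n => (by omega : n ≤ 2 * n)) tendsto_id)).const_mul 2
  refine le_of_tendsto_of_tendsto' hΛ c7 fun M => ?_
  have c8 : ∑ n ∈ Finset.Icc 1 M, ψ (2 * n) ≤ ∑ m ∈ Finset.Icc 1 (2 * M), ψ m := by
    have e1 : ∑ n ∈ Finset.Icc 1 M, ψ (2 * n) =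
        ∑ m ∈ (Finset.Icc 1 M).image (fun n => 2 * n), ψ m := by
      rw [Finset.sum_image]
      intro a _ b _ hab
      dsimp only at hab
      omega
    rw [e1]
    refine Finset.sum_le_sum_of_subset_of_nonneg ?_ fun m _ _ => hψ0 m
    intro m hm
    rw [Finset.mem_image] at hm
    obtain ⟨n, hn, rfl⟩ := hm
    rw [Finset.mem_Icc] at hn ⊢
    omega
  have c9 : 2 * ((∑ m ∈ Finset.Icc 1 (2 * M), ψ m) / ((2 * M : ℕ) : ℝ)) =
      (∑ m ∈ Finset.Icc 1 (2 * M), ψ m) / M := by
    push_cast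
    rw [← mul_div_assoc, mul_div_mul_left _ _ two_ne_zero]
  rw [c9]
  exact div_le_div_of_nonneg_right c8 (Nat.cast_nonneg M)

end Pool.Agent.H7.SS
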